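import Pool.Agent.helper16.EXC.Spec3

set_option autoImplicit false

open Finset

namespace Pool.Agent.EXC

theorem ZQR_eig (F K : Type) [Field F] [Field K] [Algebra F K] (M : Matrix (Fin 2) (Fin 2) F)
    (hdet : M.det = 1) (z : K) (hz : z ≠ 0) (htr : algebraMap F K M.trace = z + z⁻¹) (m : ℕ)
    (hM : M ^ m = 1) : z ^ m = 1 := by
  obtain ⟨A, hA⟩ : ∃ A : Matrix (Fin 2) (Fin 2) K, A = (algebraMap F K).mapMatrix M := ⟨_, rfl⟩
  have hAm : A ^ m = 1 := by rw [hA, ← map_pow, hM, map_one]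
  have hAe : ∀ i j, A i j = algebraMap F K (M i j) := by
    intro i j
    rw [hA]
    rfl
  have hdetA : A 0 0 * A 1 1 - A 0 1 * A 1 0 = 1 := by
    have h1 := congrArg (algebraMap F K) hdet
    rw [Matrix.det_fin_two, map_sub, map_mul, map_mul, map_one] at h1
    rw [hAe, hAe, hAe, hAe]
    exact h1
  have htrA : A 0 0 + A 1 1 = z + z⁻¹ := by
    rw [← htr, Matrix.trace_fin_two, map_add, hAe, hAe]
  have hd : (A - z • (1 : Matrix (Fin 2) (Fin 2) K)).det = 0 := by
    rw [Matrix.det_fin_two]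
    have hzz : z * z⁻¹ = 1 := mul_inv_cancel₀ hz
    simp only [Matrix.sub_apply, Matrix.smul_apply, Matrix.one_apply_eq, smul_eq_mul, mul_one,
      Matrix.one_apply_ne (zero_ne_one), Matrix.one_apply_ne (one_ne_zero), mul_zero, sub_zero]
    linear_combination hdetA - z * htrA - hzz
  obtain ⟨v, hv, hAv⟩ := Matrix.exists_mulVec_eq_zero_iff.2 hd
  have h1 : A.mulVec v = z • v := by
    rw [Matrix.sub_mulVec, Matrix.smul_mulVec, Matrix.one_mulVec, sub_eq_zero] at hAv
    exact hAv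
  have h2 : ∀ k : ℕ, (A ^ k).mulVec v = z ^ k • v := by
    intro k
    induction k with
    | zero => simp
    | succ k ih =>
      rw [pow_succ, ← Matrix.mulVec_mulVec, h1, Matrix.mulVec_smul, ih, smul_smul, pow_succ']
  have h3 := h2 m
  rw [hAm, Matrix.one_mulVec] at h3
  obtain ⟨i, hi⟩ := Function.ne_iff.1 hv
  have h4 := congrFun h3 i
  rw [Pi.smul_apply, smul_eq_mul] at h4
  have h5 : (z ^ m - 1) * v i = 0 := by rw [sub_mul, one_mul, ← h4, sub_self]
  rcases mul_eq_zero.1 h5 with h6 | h6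
  · exact sub_eq_zero.1 h6
  · exact absurd h6 hi

theorem ZQR_core (F K : Type) [Field F] [Fintype F] [Field K] [Algebra F K] [IsAlgClosed K]
    (hmem : ∀ x : K, x ^ Fintype.card F = x → ∃ c : F, x = algebraMap F K c)
    (hadd : ∀ x y : K, (x + y) ^ Fintype.card F = x ^ Fintype.card F + y ^ Fintype.card F)
    (h3F : (3 : F) ≠ 0) (hodd : Odd (Fintype.card F)) (ω : K) (hω : IsPrimitiveRoot ω 3) (N : ℕ)
    (hN : N + 1 = Fintype.card F ∨ N = Fintype.card F + 1) (h3 : 3 ∣ N) (h2 : 2 ∣ N)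
    (hN0 : 0 < N) :
    ∃ (g : K) (D : F), IsPrimitiveRoot g N ∧ algebraMap F K D = g + g⁻¹ - 2 ∧ D ≠ 0 ∧
      ¬ IsSquare (-3 * D) := by
  have hq0 : ((Fintype.card F : ℕ) : K) = 0 := by
    have h := congrArg (algebraMap F K) (Nat.cast_card_eq_zero F)
    rwa [map_natCast, map_zero] at h
  have hNK : ((N : ℕ) : K) ≠ 0 := by
    rcases hN with h | h
    · intro h0
      have h1 : ((N + 1 : ℕ) : K) = 0 := by rw [h]; exact hq0
      rw [Nat.cast_add, h0, Nat.cast_one, zero_add] at h1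
      exact one_ne_zero h1
    · rw [h, Nat.cast_add, hq0, Nat.cast_one, zero_add]
      exact one_ne_zero
  have : NeZero ((N : ℕ) : K) := ⟨hNK⟩
  obtain ⟨g, hg⟩ := HasEnoughRootsOfUnity.exists_primitiveRoot K N
  have hg0 : g ≠ 0 := hg.ne_zero hN0.ne'
  have hω0 : ω ≠ 0 := hω.ne_zero (by norm_num)
  have hω1 : ω ≠ 1 := hω.ne_one (by norm_num)
  have hN3 : 3 ≤ N := Nat.le_of_dvd hN0 h3
  have hg1 : g ≠ 1 := hg.ne_one (by omega)
  have hωω : ω ^ 2 + ω + 1 = 0 := by
    have h4 : (ω - 1) * (ω ^ 2 + ω + 1) = 0 := by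
      have h5 : ω ^ 3 = 1 := hω.pow_eq_one
      linear_combination h5
    exact (mul_eq_zero.1 h4).resolve_left (sub_ne_zero.2 hω1)
  have hωN : ω ^ N = 1 := (hω.pow_eq_one_iff_dvd N).2 h3
  have hgN : g ^ N = 1 := hg.pow_eq_one
  have hneg : (-1 : K) ^ Fintype.card F = -1 := hodd.neg_one_pow
  have hsub : ∀ x : K, (x - 1) ^ Fintype.card F = x ^ Fintype.card F - 1 := by
    intro x
    rw [sub_eq_add_neg, hadd, hneg, ← sub_eq_add_neg]
  have hD : ∃ D : F, algebraMap F K D = g + g⁻¹ - 2 := by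
    have h5 : (g + g⁻¹) ^ Fintype.card F = g + g⁻¹ := by
      rcases hN with h | h
      · rw [hadd, ← h, inv_pow, pow_succ, hgN, one_mul]
      · have h6 : g ^ Fintype.card F = g⁻¹ := by
          rw [h, pow_succ] at hgN
          exact eq_inv_of_mul_eq_one_left hgN
        rw [hadd, inv_pow, h6, inv_inv, add_comm]
    obtain ⟨a, ha⟩ := hmem _ h5
    refine ⟨a - 2, ?_⟩
    rw [ha, map_sub, map_ofNat]
  obtain ⟨D, hD⟩ := hD
  have hD2 : algebraMap F K D * g = (g - 1) ^ 2 := by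
    rw [hD]
    have : g⁻¹ * g = 1 := inv_mul_cancel₀ hg0
    linear_combination this
  have hD0 : D ≠ 0 := by
    intro h
    rw [h, map_zero, zero_mul] at hD2
    exact pow_ne_zero 2 (sub_ne_zero.2 hg1) hD2.symm
  refine ⟨g, D, hg, hD, hD0, ?_⟩
  rintro ⟨y, hy⟩
  have hy0 : y ≠ 0 := by
    rintro rfl
    rw [mul_zero] at hy
    rcases mul_eq_zero.1 hy with h | h
    · exact h3F (neg_eq_zero.1 h)
    · exact hD0 h
  obtain ⟨Y, hY⟩ : ∃ Y : K, Y = algebraMap F K y := ⟨_, rfl⟩
  have hY0 : Y ≠ 0 := by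
    rw [hY]
    exact (map_ne_zero (algebraMap F K)).2 hy0
  have hYq : Y ^ Fintype.card F = Y := by
    rw [hY, ← map_pow, FiniteField.pow_card]
  have hY2 : Y ^ 2 * (ω * g) = (ω - 1) ^ 2 * (g - 1) ^ 2 := by
    have h5 := congrArg (algebraMap F K) hy
    rw [map_mul, map_mul, ← hY, map_neg, map_ofNat] at h5
    linear_combination (-ω * g) * h5 - 3 * ω * hD2 + (g - 1) ^ 2 * (-1) * hωω
  obtain ⟨z, hz⟩ : ∃ z : K, z = (ω - 1) * (g - 1) / Y := ⟨_, rfl⟩
  have hzY : z * Y = (ω - 1) * (g - 1) := by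
    rw [hz]
    field_simp
  have hz2 : z ^ 2 = ω * g := by
    have h5 : (z ^ 2 - ω * g) * Y ^ 2 = 0 := by
      have h6 : (z * Y) ^ 2 = ((ω - 1) * (g - 1)) ^ 2 := by rw [hzY]
      linear_combination h6 - hY2
    rcases mul_eq_zero.1 h5 with h6 | h6
    · exact sub_eq_zero.1 h6
    · exact absurd h6 (pow_ne_zero 2 hY0)
  have hz0 : z ≠ 0 := by
    intro h
    rw [h] at hz2
    have h5 : ω * g = 0 := by rw [← hz2]; ring
    rcases mul_eq_zero.1 h5 with h6 | h6
    · exact hω0 h6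
    · exact hg0 h6
  have hzN : z ^ N = 1 := by
    rcases hN with h | h
    · have hωq : ω ^ Fintype.card F = ω := by rw [← h, pow_succ, hωN, one_mul]
      have hgq : g ^ Fintype.card F = g := by rw [← h, pow_succ, hgN, one_mul]
      have hzq : z ^ Fintype.card F = z := by
        rw [hz, div_pow, mul_pow, hsub, hsub, hωq, hgq, hYq]
      have h6 : z ^ N * z = 1 * z := by rw [← pow_succ, h, hzq, one_mul]
      exact mul_right_cancel₀ hz0 h6
    · have hωq : ω ^ Fintype.card F * ω = 1 := by rw [← pow_succ, ← h, hωN]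
      have hgq : g ^ Fintype.card F * g = 1 := by rw [← pow_succ, ← h, hgN]
      have hzq : z ^ Fintype.card F * Y = (ω ^ Fintype.card F - 1) * (g ^ Fintype.card F - 1) := by
        have h6 : z ^ Fintype.card F * Y ^ Fintype.card F =
            (ω - 1) ^ Fintype.card F * (g - 1) ^ Fintype.card F := by
          rw [← mul_pow, ← mul_pow, hzY]
        rw [hYq, hsub, hsub] at h6
        exact h6
      have h7 : (z ^ (Fintype.card F + 1) - 1) * (Y ^ 2 * (ω * g)) = 0 := by
        have h8 : z ^ (Fintype.card F + 1) * Y ^ 2 =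
            (ω ^ Fintype.card F - 1) * (g ^ Fintype.card F - 1) * ((ω - 1) * (g - 1)) := by
          rw [← hzq, ← hzY, pow_succ]
          ring
        have h9 : (ω ^ Fintype.card F - 1) * ω = 1 - ω := by rw [sub_mul, hωq, one_mul]
        have h10 : (g ^ Fintype.card F - 1) * g = 1 - g := by rw [sub_mul, hgq, one_mul]
        have h11 : z ^ (Fintype.card F + 1) * Y ^ 2 * (ω * g) =
            ((ω ^ Fintype.card F - 1) * ω) * ((g ^ Fintype.card F - 1) * g) *
              ((ω - 1) * (g - 1)) := by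
          rw [h8]
          ring
        rw [h9, h10] at h11
        linear_combination h11 - hY2
      rcases mul_eq_zero.1 h7 with h8 | h8
      · rw [h]
        exact sub_eq_zero.1 h8
      · exact absurd h8 (mul_ne_zero (pow_ne_zero 2 hY0) (mul_ne_zero hω0 hg0))
  obtain ⟨M, hM⟩ := h2
  have ht2 : (z * ω) ^ 2 = g := by
    have h5 : ω ^ 3 = 1 := hω.pow_eq_one
    rw [mul_pow, hz2]
    linear_combination g * h5
  have hgM : g ^ M = 1 := by
    rw [← ht2, ← pow_mul, ← hM, mul_pow, hzN, hωN, one_mul]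
  have h6 := (hg.pow_eq_one_iff_dvd M).1 hgM
  have h7 := Nat.le_of_dvd (by omega) h6
  omega

theorem ZQR (hFL0 : FL0_stmt) : ZQR_stmt := by
  intro F _ _ h3 c hc
  classical
  let _ : Fintype F := Fintype.ofFinite F
  obtain ⟨⟨ω, hω⟩, hmem, hadd, -⟩ := hFL0 F (AlgebraicClosure F) 3 Nat.prime_three h3
  have hcard : Nat.card F = Fintype.card F := Nat.card_eq_fintype_card
  rw [hcard] at h3 hmem hadd
  have hω0 : ω ≠ 0 := hω.ne_zero (by norm_num)
  have hω1 : ω ≠ 1 := hω.ne_one (by norm_num)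
  have hωω : ω ^ 2 + ω + 1 = 0 := by
    have h4 : (ω - 1) * (ω ^ 2 + ω + 1) = 0 := by
      have h5 : ω ^ 3 = 1 := hω.pow_eq_one
      linear_combination h5
    exact (mul_eq_zero.1 h4).resolve_left (sub_ne_zero.2 hω1)
  have h3F : (3 : F) ≠ 0 := by
    intro h
    obtain ⟨p, hp⟩ := CharP.exists F
    obtain ⟨n, hpp, hn⟩ := FiniteField.card F p
    have h1 : ((3 : ℕ) : F) = 0 := by exact_mod_cast h
    have h2 : p ∣ 3 := (CharP.cast_eq_zero_iff F p 3).1 h1
    have h4 : p = 3 := (Nat.prime_dvd_prime_iff_eq hpp Nat.prime_three).1 h2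
    apply h3
    rw [hn, ← h4]
    exact dvd_pow_self p n.ne_zero
  by_cases hsq : IsSquare (-3 / c)
  · obtain ⟨v, hv⟩ := hsq
    have hcv : c * v ^ 2 = -3 := by
      rw [sq, ← hv]
      field_simp
    have hv0 : v ≠ 0 := by
      rintro rfl
      apply h3F
      have : (-3 : F) = 0 := by rw [← hcv]; ring
      exact neg_eq_zero.1 this
    refine ⟨v, hv0, fun M hdet htr m hm => ?_⟩
    have h1 : algebraMap F (AlgebraicClosure F) M.trace = ω + ω⁻¹ := by
      rw [htr, hcv]
      have h2 : (ω + ω⁻¹ + 1) * ω = 0 := by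
        have : ω⁻¹ * ω = 1 := inv_mul_cancel₀ hω0
        linear_combination hωω + this
      have h4 : ω + ω⁻¹ + 1 = 0 := (mul_eq_zero.1 h2).resolve_right hω0
      have h5 : (2 + -3 : F) = -1 := by norm_num
      rw [h5, map_neg, map_one]
      linear_combination -h4
    exact (hω.pow_eq_one_iff_dvd m).1
      (ZQR_eig F (AlgebraicClosure F) M hdet ω hω0 h1 m hm)
  · have hchar : ringChar F ≠ 2 := fun h => hsq (FiniteField.isSquare_of_char_two h _)
    have hodd : Fintype.card F % 2 = 1 := FiniteField.odd_card_of_char_ne_two hchar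
    have hq1 : 1 < Fintype.card F := Fintype.one_lt_card
    obtain ⟨N, hN, hN3, hN2, hN0⟩ : ∃ N : ℕ, (N + 1 = Fintype.card F ∨ N = Fintype.card F + 1) ∧
        3 ∣ N ∧ 2 ∣ N ∧ 0 < N := by
      rcases (by omega : Fintype.card F % 3 = 1 ∨ Fintype.card F % 3 = 2) with h | h
      · exact ⟨Fintype.card F - 1, Or.inl (by omega), by omega, by omega, by omega⟩
      · exact ⟨Fintype.card F + 1, Or.inr rfl, by omega, by omega, by omega⟩
    obtain ⟨g, D, hg, hD, hD0, hnsq⟩ := ZQR_core F (AlgebraicClosure F) hmem hadd h3F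
      (Nat.odd_iff.2 hodd) ω hω N hN hN3 hN2 hN0
    have hsqD : IsSquare ((-3 / c) * (-3 * D)) := by
      have h1 := quadraticChar_neg_one_iff_not_isSquare.2 hsq
      have h2 := quadraticChar_neg_one_iff_not_isSquare.2 hnsq
      have h4 : (-3 / c) * (-3 * D) ≠ 0 :=
        mul_ne_zero (div_ne_zero (neg_ne_zero.2 h3F) hc) (mul_ne_zero (neg_ne_zero.2 h3F) hD0)
      rw [← quadraticChar_one_iff_isSquare h4, map_mul, h1, h2]
      norm_num
    obtain ⟨w, hw⟩ := hsqD
    have hcv : c * (w / 3) ^ 2 = D := by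
      have h1 : w ^ 2 = 9 * D / c := by
        rw [sq, ← hw]
        field_simp
        norm_num
      rw [div_pow, h1]
      field_simp
      norm_num
    have hw0 : w / 3 ≠ 0 := by
      intro h
      rw [h] at hcv
      apply hD0
      rw [← hcv]
      ring
    refine ⟨w / 3, hw0, fun M hdet htr m hm => ?_⟩
    have h1 : algebraMap F (AlgebraicClosure F) M.trace = g + g⁻¹ := by
      rw [htr, hcv, map_add, hD, map_ofNat]
      ring
    exact hN3.trans ((hg.pow_eq_one_iff_dvd m).1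
      (ZQR_eig F (AlgebraicClosure F) M hdet g (hg.ne_zero hN0.ne') h1 m hm))

end Pool.Agent.EXC
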